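import Mathlib
import Pool.Agent.H29.Dom4

set_option autoImplicit false
open Finset

namespace Pool.Agent.Results.MP_fd33cb_co.ModeOff

/-- The number of dominating sets of size `i`. -/
noncomputable def domCount {V : Type} (G : SimpleGraph V) (i : ℕ) : ℕ :=
  {S : Finset V | S.card = i ∧ ∀ v : V, v ∈ S ∨ ∃ u ∈ S, G.Adj v u}.ncard

/-- The average size of a dominating set. -/
noncomputable def avd {V : Type} [Fintype V] (G : SimpleGraph V) : ℝ :=
  (∑ i ∈ range (Fintype.card V + 1), (i : ℝ) * domCount G i) /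
    ∑ i ∈ range (Fintype.card V + 1), (domCount G i : ℝ)

open Classical in
lemma domCount_eq {V : Type} [Fintype V] (G : SimpleGraph V) (i : ℕ) : domCount G i =
    (univ.filter fun S : Finset V => S.card = i ∧ ∀ v : V, v ∈ S ∨ ∃ u ∈ S, G.Adj v u).card := by
  unfold domCount
  rw [← Set.ncard_coe_finset]
  congr 1
  ext S
  simp only [Set.mem_ofPred_eq, coe_filter, mem_univ, true_and]

lemma domCount_le {V : Type} [Fintype V] (G : SimpleGraph V) (i : ℕ) :
    domCount G i ≤ 2 ^ Fintype.card V := by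
  classical
  rw [domCount_eq, ← Fintype.card_finset]
  exact card_le_univ _

lemma domCount_zero {V : Type} [Fintype V] (G : SimpleGraph V) (i : ℕ) (hi : Fintype.card V < i) :
    domCount G i = 0 := by
  classical
  rw [domCount_eq, card_eq_zero, filter_eq_empty_iff]
  intro S _ h
  have := card_le_univ S
  omega

open Classical in
lemma gen {V : Type} [Fintype V] (G : SimpleGraph V) (t : ℝ) :
    ∑ i ∈ range (Fintype.card V + 1), (domCount G i : ℝ) * t ^ i =
      ∑ S : Finset V, if (∀ v : V, v ∈ S ∨ ∃ u ∈ S, G.Adj v u) then t ^ S.card else 0 := by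
  simp only [domCount_eq, card_filter, Nat.cast_sum, sum_mul]
  rw [sum_comm]
  refine sum_congr rfl fun S _ => ?_
  have := card_le_univ S
  by_cases h : ∀ v : V, v ∈ S ∨ ∃ u ∈ S, G.Adj v u
  · rw [if_pos h, sum_eq_single S.card]
    · simp [h]
    · intro i _ hi
      simp [hi.symm]
    · intro hh
      exact absurd (mem_range.2 (by omega)) hh
  · rw [if_neg h]
    exact sum_eq_zero fun i _ => by simp [h]

open Pool.Agent.H29.Dom

def mainT (N t : ℕ) : ℕ := (1 + t) * (2 * t + t ^ 2) * ∑ k ∈ range (N + 1),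
  N.descFactorial k / k.factorial * ((t ^ 2) ^ k * (1 + 2 * t) ^ (N - k) *
    (((1 + t) ^ 4) ^ (k * k) * (4 * t + 6 * t ^ 2 + 4 * t ^ 3 + t ^ 4) ^ (N * N - k * k)))

def errT (N t : ℕ) : ℕ := (2 * t + t ^ 2) * (4 * t + 6 * t ^ 2 + 4 * t ^ 3 + t ^ 4) ^ (N * N)

lemma val (N t : ℕ) : ∑ i ∈ range (Fintype.card (V (Fin N) (Fin 2) ⊕ Fin 3) + 1),
    domCount (G2 (Fin N) (Fin 2)) i * t ^ i = mainT N t - errT N t := by
  apply eq_tsub_of_add_eq
  have h := gen2 (ι := Fin N) (L := Fin 2) (t : ℝ)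
  have h2 := W_formula (ι := Fin N) (L := Fin 2) (fun _ => 1) (t : ℝ)
  have h3 := gen (G2 (Fin N) (Fin 2)) (t : ℝ)
  have e1 : (1 + (t : ℝ)) ^ 2 - t ^ 2 = 1 + 2 * t := by ring
  have e2 : (1 + (t : ℝ)) ^ (2 * 2) - 1 = 4 * t + 6 * t ^ 2 + 4 * t ^ 3 + t ^ 4 := by ring
  rw [h2] at h
  simp only [Fintype.card_fin, e1, e2, one_mul] at h
  unfold mainT errT
  simp only [← Nat.choose_eq_descFactorial_div_factorial]
  have h4 : ∑ i ∈ range (Fintype.card (V (Fin N) (Fin 2) ⊕ Fin 3) + 1),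
      (domCount (G2 (Fin N) (Fin 2)) i : ℝ) * t ^ i = _ := h3.trans (by
        convert eq_sub_of_add_eq h using 3
        exact Iff.rfl)
  have h5 := add_eq_of_eq_sub h4
  exact_mod_cast h5

lemma card_eq : Fintype.card (V (Fin 22) (Fin 2) ⊕ Fin 3) = 1983 := by
  simp [V]

theorem result : ∃ (V : Type) (_ : Fintype V) (G : SimpleGraph V),
    (∃ m : ℕ, ∀ i, domCount G i ≤ domCount G m) ∧
    ∀ m : ℕ, (∀ i, domCount G i ≤ domCount G m) → (m : ℤ) ≠ ⌊avd G⌋ ∧ (m : ℤ) ≠ ⌈avd G⌉ := by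
  refine ⟨V (Fin 22) (Fin 2) ⊕ Fin 3, inferInstance, G2 (Fin 22) (Fin 2), ?_, ?_⟩
  · obtain ⟨m, -, hm⟩ := exists_max_image (range (Fintype.card (V (Fin 22) (Fin 2) ⊕ Fin 3) + 1))
      (domCount (G2 (Fin 22) (Fin 2))) nonempty_range_add_one
    refine ⟨m, fun i => ?_⟩
    by_cases hi : i < Fintype.card (V (Fin 22) (Fin 2) ⊕ Fin 3) + 1
    · exact hm i (mem_range.2 hi)
    · rw [domCount_zero _ i (by omega)]; exact Nat.zero_le _
  · have hv := val 22
    have hle := domCount_le (G2 (Fin 22) (Fin 2))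
    unfold avd
    rw [card_eq] at *
    generalize domCount (G2 (Fin 22) (Fin 2)) = d at *
    have hb : ∀ i, d i < 2 ^ 1984 := fun i =>
      (hle i).trans_lt (Nat.pow_lt_pow_right (by decide) (by decide))
    have hd := fun j hj => digit (2 ^ 1984) (Nat.two_pow_pos _) j (1983 + 1) d hb hj
    rw [hv] at hd
    have h1 : d 1036 < d 1038 := by
      rw [← hd 1036 (by decide), ← hd 1038 (by decide)]; decide +kernel
    have h2 : d 1037 < d 1038 := by
      rw [← hd 1037 (by decide), ← hd 1038 (by decide)]; decide +kernel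
    have s0 : ∑ i ∈ range (1983 + 1), d i < 2 ^ 2010 :=
      (sum_le_card_nsmul _ _ _ fun i _ => hle i).trans_lt (by rw [card_range]; decide +kernel)
    have s1 : ∑ i ∈ range (1983 + 1), i * d i < 2 ^ 2010 :=
      (sum_le_card_nsmul _ _ (1984 * 2 ^ 1983) fun i hi =>
        Nat.mul_le_mul (mem_range.1 hi).le (hle i)).trans_lt (by rw [card_range]; decide +kernel)
    obtain ⟨m0, m1⟩ := moments (2 ^ 2010) (1983 + 1) d s0 s1
    rw [hv] at m0 m1
    have a1 : 1036 * ∑ i ∈ range (1983 + 1), d i < ∑ i ∈ range (1983 + 1), i * d i := by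
      rw [← m0, ← m1]; decide +kernel
    have a2 : ∑ i ∈ range (1983 + 1), i * d i < 1037 * ∑ i ∈ range (1983 + 1), d i := by
      rw [← m0, ← m1]; decide +kernel
    have c0 : ∑ i ∈ range (1983 + 1), (d i : ℝ) = ((∑ i ∈ range (1983 + 1), d i : ℕ) : ℝ) :=
      (Nat.cast_sum _ _).symm
    have c1 : ∑ i ∈ range (1983 + 1), (i : ℝ) * d i =
        ((∑ i ∈ range (1983 + 1), i * d i : ℕ) : ℝ) := by
      rw [Nat.cast_sum]; exact sum_congr rfl fun i _ => (Nat.cast_mul _ _).symm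
    rw [c0, c1]
    clear c0 c1 m0 m1 s0 s1 hd hb hle hv
    generalize ∑ i ∈ range (1983 + 1), d i = x at *
    generalize ∑ i ∈ range (1983 + 1), i * d i = y at *
    have hx : (0 : ℝ) < x := by exact_mod_cast (by omega : 0 < x)
    have b1 : (1036 : ℝ) < (y : ℝ) / x := by rw [lt_div_iff₀ hx]; exact_mod_cast a1
    have b2 : (y : ℝ) / x < 1037 := by rw [div_lt_iff₀ hx]; exact_mod_cast a2
    have f1 : ⌊(y : ℝ) / x⌋ = 1036 := Int.floor_eq_iff.2 ⟨by push_cast; linarith, by push_cast; linarith⟩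
    have f2 : ⌈(y : ℝ) / x⌉ = 1037 := Int.ceil_eq_iff.2 ⟨by push_cast; linarith, by push_cast; linarith⟩
    rw [f1, f2]
    intro m hm
    have := hm 1038
    constructor
    · intro h
      obtain rfl : m = 1036 := by omega
      omega
    · intro h
      obtain rfl : m = 1037 := by omega
      omega

end Pool.Agent.Results.MP_fd33cb_co.ModeOff
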